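import Pool.Agent.H.MP_af48a1_al.C

set_option autoImplicit false

namespace Pool.Agent.Results.MP_2f4918_al.QP2

open scoped Pointwise

variable {B : Type} {M : CoxeterMatrix B} {W : Type} [Group W]

/-- `Aut(W,S)`: the automorphisms of `W` mapping `S` onto itself. -/
def AutS (cs : CoxeterSystem M W) : Subgroup (MulAut W) :=
  MulAction.stabilizer (MulAut W) (Set.range cs.simple)

/-- `W⁺ = W ⋊ Aut(W,S)`. -/
abbrev Wp (cs : CoxeterSystem M W) : Type := W ⋊[(AutS cs).subtype] AutS cs

/-- `r x r` for `r ∈ W`, `x ∈ W⁺`. -/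
def tw (cs : CoxeterSystem M W) (r : W) (x : Wp cs) : Wp cs :=
  SemidirectProduct.inl r * x * SemidirectProduct.inl r

/-- `K` is a `W`-conjugacy class in `I⁺ = {x : x² = 1}`. -/
def IsClass (cs : CoxeterSystem M W) (K : Set (Wp cs)) : Prop :=
  ∃ x : Wp cs, x ^ 2 = 1 ∧
    K = {y | ∃ u : W, y = SemidirectProduct.inl u * x * (SemidirectProduct.inl u)⁻¹}

open Pool.Agent.H.MP_af48a1_al in
theorem result (B : Type) (M : CoxeterMatrix B) (W : Type) [Group W] (cs : CoxeterSystem M W)
    (K : Set (Wp cs)) (hK : IsClass cs K)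
    (h : ∀ r, cs.IsReflection r → ∀ w ∈ K,
      cs.length (tw cs r w).left = cs.length w.left → tw cs r w = w) :
    ∀ r, cs.IsReflection r → ∀ w ∈ K, ∀ s ∈ Set.range cs.simple,
      cs.length w.left < cs.length (tw cs r w).left →
      cs.length (tw cs s (tw cs r w)).left < cs.length (tw cs s w).left →
      tw cs r w = tw cs s w := by
  obtain ⟨x, hx, rfl⟩ := hK
  rintro r hr w ⟨u, hu⟩ _ ⟨i, rfl⟩ l1 l2
  have hw : w * w = 1 := by rw [← sq, hu, conj_pow, hx]; simp
  let θ : W →* W := (w.right : MulAut W).toMonoidHom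
  have tt : ∀ u, θ (θ u) = u := fun u =>
    DFunLike.congr_fun (congrArg (fun y : Wp cs => (y.right : MulAut W)) hw) u
  have hS : ∀ i, ∃ j, θ (cs.simple i) = cs.simple j := fun i => by
    have a := Set.smul_mem_smul_set (a := (w.right : MulAut W))
      (Set.mem_range_self (f := cs.simple) i)
    rw [MulAction.mem_stabilizer_iff.mp w.right.2] at a
    exact a.imp fun j hj => hj.symm
  have h1 : θ w.left = w.left⁻¹ := eq_inv_of_mul_eq_one_right (congrArg (·.left) hw)
  have hQ : QP1 cs θ w.left := fun v t ht hl => by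
    have := h t ht (.inl v * w * (.inl v)⁻¹) ⟨v * u, by rw [hu, map_mul]; group⟩
      (by simpa [tw, θ] using hl)
    simpa [tw, θ] using congrArg (·.left) this
  refine SemidirectProduct.ext ?_ (by simp [tw])
  simpa [tw, θ] using qp2' tt hS h1 hQ hr i (by simpa [tw, θ] using l1) (by simpa [tw, θ] using l2)

end Pool.Agent.Results.MP_2f4918_al.QP2
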